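import Pool.Agent.Helper29.BL.GoalsA
import Pool.Agent.Helper29.BL.GoalsD

/-!
# TOR: few points of a small ball differ from a given one by torsion in a coordinate
-/

set_option autoImplicit false

namespace Pool.Agent.Helper24.BL

open WeierstrassCurve Height Height.AdmissibleAbsValues Polynomial Pool.Agent.Helper29.BL
open scoped Polynomial.Bivariate

theorem tor_of : VF → NOR → QSN → TOR := by
  classical
  intro hV hN _ K _ _ _ W₁ W₂ _ _ H₁ H₂ c₀ hH₁ hH₂ d hd
  obtain ⟨ε, hε, T₁, N, hVF⟩ := hV K W₁ W₂ d hd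
  obtain ⟨-, n₁⟩ := hN K W₁
  obtain ⟨f₁, -, t₁⟩ := n₁ H₁ c₀ hH₁
  obtain ⟨-, n₂⟩ := hN K W₂
  obtain ⟨f₂, -, t₂⟩ := n₂ H₂ c₀ hH₂
  set F₁ := (f₁ 0).toFinset with hF₁
  set F₂ := (f₂ 0).toFinset with hF₂
  refine ⟨ε / 2, by positivity, max T₁ (max c₀ (4 * c₀ / ε)), N * F₁.card + N * F₂.card, ?_⟩
  intro T hT B hB y
  have hT1 : T₁ ≤ T := (le_max_left _ _).trans hT
  have hT2 : c₀ ≤ T := (le_max_left _ _).trans ((le_max_right _ _).trans hT)
  have hT3 : 4 * c₀ / ε ≤ T := (le_max_right _ _).trans ((le_max_right _ _).trans hT)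
  have hT4 : 2 * c₀ ≤ ε / 2 * T := by
    have := (div_le_iff₀ hε).1 hT3
    linarith
  -- the hypotheses of VF
  have g1 : ∀ z ∈ B, Aff z ∧ hh z ≤ 5 * T ∧ d * T ≤ gg z := by
    intro z hz
    have a1 := abs_le.1 (hH₁.near z.1)
    have a2 := abs_le.1 (hH₂.near z.2)
    have a3 := hB.size z hz
    refine ⟨⟨fun h => ?_, fun h => ?_⟩, ?_, hB.bad z hz⟩
    · exact (hB.nt z hz).1 1 one_pos (by rw [h]; exact smul_zero _)
    · exact (hB.nt z hz).2 1 one_pos (by rw [h]; exact smul_zero _)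
    · have : hh z = hx z.1 + hx z.2 := rfl
      linarith [a1.1, a2.1]
  have g2 : ∀ z ∈ B, ∀ z' ∈ B, hh (z - z') ≤ ε * T := by
    intro z hz z' hz'
    have a1 := abs_le.1 (hH₁.near (z.1 - z'.1))
    have a2 := abs_le.1 (hH₂.near (z.2 - z'.2))
    have a3 := hB.diam z hz z' hz'
    have : hh (z - z') = hx (z.1 - z'.1) + hx (z.2 - z'.2) := rfl
    linarith [a1.1, a2.1]
  constructor
  · refine (Finset.card_le_mul_card_image_of_maps_to (f := fun z => y.1 - z.1) (t := F₁)
      (fun z hz => ?_) N (fun b _ => ?_)).trans (Nat.le_add_right _ _)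
    · obtain ⟨n, hn, h0⟩ := (Finset.mem_filter.1 hz).2
      rw [hF₁, Set.Finite.mem_toFinset]
      exact (t₁ _ n hn h0).le
    · refine hVF T hT1 _ (fun z hz => ?_) (fun z hz z' hz' => ?_) (Or.inl fun z hz z' hz' => ?_)
      · exact g1 z (Finset.mem_filter.1 (Finset.mem_filter.1 hz).1).1
      · exact g2 z (Finset.mem_filter.1 (Finset.mem_filter.1 hz).1).1 z'
          (Finset.mem_filter.1 (Finset.mem_filter.1 hz').1).1
      · exact sub_right_injective (((Finset.mem_filter.1 hz).2).trans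
          ((Finset.mem_filter.1 hz').2).symm)
  · refine (Finset.card_le_mul_card_image_of_maps_to (f := fun z => y.2 - z.2) (t := F₂)
      (fun z hz => ?_) N (fun b _ => ?_)).trans (Nat.le_add_left _ _)
    · obtain ⟨n, hn, h0⟩ := (Finset.mem_filter.1 hz).2
      rw [hF₂, Set.Finite.mem_toFinset]
      exact (t₂ _ n hn h0).le
    · refine hVF T hT1 _ (fun z hz => ?_) (fun z hz z' hz' => ?_) (Or.inr fun z hz z' hz' => ?_)
      · exact g1 z (Finset.mem_filter.1 (Finset.mem_filter.1 hz).1).1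
      · exact g2 z (Finset.mem_filter.1 (Finset.mem_filter.1 hz).1).1 z'
          (Finset.mem_filter.1 (Finset.mem_filter.1 hz').1).1
      · exact sub_right_injective (((Finset.mem_filter.1 hz).2).trans
          ((Finset.mem_filter.1 hz').2).symm)

end Pool.Agent.Helper24.BL
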